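import Mathlib
import Pool.Agent.V11153.SY.AmenC
import Pool.Agent.Y501.SY.FinalU

/-!
# Symplectic forms in a prescribed class from forms on amenable coverings, by finite sums

`X` is a closed manifold with a continuous almost complex structure `J`, `σ` is a closed two-form
on `X` (which represents the prescribed class), `pr : Z → X` is a normal covering with amenable
deck group `Γ`, and `β` is a one-form on `Z` with locally uniformly bounded translates. The form
`w = pr^* σ + dβ` need not be positive anywhere. For each tangent vector `v ≠ 0` of `X` at `pr z` we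
ask that some FINITE sum of right translates of the function `γ ↦ (γ^* w)(v, J v)` on `Γ` is bounded
below by a positive constant (`SumPos`): for all `v` with `df(v) ≠ 0`, where `f` is a smooth map
from `X` to a manifold, and for all `v ≠ 0` outside a set which has small components in each fibre
of `f`. Then the class of `σ` contains a symplectic form taming `J`, and it is homotopic through
nondegenerate forms to every form taming `J`.
-/

set_option autoImplicit false

open Set Filter Topology MeasureTheory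
open scoped Manifold ContDiff

namespace Pool.Agent.Results.MP_bf98aa_gt.AmenableSumsInClass

open Pool.Agent.Y501.SYP

section

variable {V : Type} [NormedAddCommGroup V] [NormedSpace ℝ V]
  {Z X : Type} [TopologicalSpace Z] [ChartedSpace V Z] [TopologicalSpace X] [ChartedSpace V X]

/-- Let `v` be a tangent vector of `X` at `pr z` and `u`, `u'` the lifts of `v` and `J v` to `z`.
There are a finite set `F` in `Γ` and `c > 0` such that
`∑ g ∈ F, ((γ g)^* w)(u, u') ≥ c` for all `γ` in `Γ`. -/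
def SumPos (Γ : Type) [Group Γ] [MulAction Γ Z] (pr : Z → X) (J : End V X) (w : Form V Z 2)
    (z : Z) (v : TangentSpace 𝓘(ℝ, V) (pr z)) : Prop :=
  ∃ u u' : TangentSpace 𝓘(ℝ, V) z, mfderiv 𝓘(ℝ, V) 𝓘(ℝ, V) pr z u = v ∧
    mfderiv 𝓘(ℝ, V) 𝓘(ℝ, V) pr z u' = J (pr z) v ∧
    ∃ (F : Finset Γ) (c : ℝ), 0 < c ∧ ∀ γ : Γ, c ≤ ∑ g ∈ F, translate (γ * g) w z ![u, u']

/-- the points of `X` over which `SumPos` fails for some nonzero tangent vector -/
def NotSum (Γ : Type) [Group Γ] [MulAction Γ Z] (pr : Z → X) (J : End V X) (w : Form V Z 2) :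
    Set X :=
  {x | ∃ z : Z, pr z = x ∧ ∃ v : TangentSpace 𝓘(ℝ, V) (pr z), v ≠ 0 ∧ ¬ SumPos Γ pr J w z v}

/-- The components of the intersections of `NotSum` with the fibres of `f` are small at all their
points. -/
def SmallInFibres [MeasurableSpace V] [BorelSpace V] (Γ : Type) [Group Γ] [MulAction Γ Z]
    (pr : Z → X) (J : End V X) (w : Form V Z 2) {Y : Type} (f : X → Y) : Prop :=
  ∀ z : Z, pr z ∈ NotSum Γ pr J w →
    SmallAt J (connectedComponentIn (NotSum Γ pr J w ∩ f ⁻¹' {f (pr z)}) (pr z)) (pr z)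
      (fun v => ¬ SumPos Γ pr J w z v)

/-- The components of `NotSum` are small at all their points. -/
def SmallNotSum [MeasurableSpace V] [BorelSpace V] (Γ : Type) [Group Γ] [MulAction Γ Z]
    (pr : Z → X) (J : End V X) (w : Form V Z 2) : Prop :=
  ∀ z : Z, pr z ∈ NotSum Γ pr J w →
    SmallAt J (connectedComponentIn (NotSum Γ pr J w) (pr z)) (pr z)
      (fun v => ¬ SumPos Γ pr J w z v)

/-- `w` is weakly taming: `(γ^* w)(u, u') ≥ 0` if `u'` is the lift of `J v`, `v = dpr(u)`. -/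
def WeaklyTames (Γ : Type) [Group Γ] [MulAction Γ Z] (pr : Z → X) (J : End V X)
    (w : Form V Z 2) : Prop :=
  ∀ (z : Z) (u u' : TangentSpace 𝓘(ℝ, V) z),
    mfderiv 𝓘(ℝ, V) 𝓘(ℝ, V) pr z u' = J (pr z) (mfderiv 𝓘(ℝ, V) 𝓘(ℝ, V) pr z u) →
    ∀ γ : Γ, 0 ≤ translate γ w z ![u, u']

/-- `w` is uniformly taming at a relatively dense set of lifts: for every `z` and `u ≠ 0`, with `u'`
the lift of `J v`, `v = dpr(u)`, there are a finite set `F` in `Γ` and `c > 0` such that for every
`γ` there is `g ∈ F` with `((γ g)^* w)(u, u') ≥ c`. -/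
def SyndeticallyTames (Γ : Type) [Group Γ] [MulAction Γ Z] (pr : Z → X) (J : End V X)
    (w : Form V Z 2) : Prop :=
  ∀ (z : Z) (u u' : TangentSpace 𝓘(ℝ, V) z), u ≠ 0 →
    mfderiv 𝓘(ℝ, V) 𝓘(ℝ, V) pr z u' = J (pr z) (mfderiv 𝓘(ℝ, V) 𝓘(ℝ, V) pr z u) →
    ∃ (F : Finset Γ) (c : ℝ), 0 < c ∧ ∀ γ : Γ, ∃ g ∈ F, c ≤ translate (γ * g) w z ![u, u']

/-- The class of `σ` contains a symplectic form `σ + dα` taming `J`, which is homotopic through
nondegenerate forms (along the segment) to every form taming `J`. -/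
def SymplecticInClass (σ : Form V X 2) (J : End V X) : Prop :=
  ∃ (α : Form V X 1) (ρ : Form V X 2), IsSmooth α ∧ IsSmooth ρ ∧ IsD α ρ ∧
    IsTamingSymplectic (addF σ ρ) J ∧ ∀ τ : Form V X 2, (∀ x, TamesAt τ J x) →
      ∀ t : ℝ, 0 ≤ t → t ≤ 1 → Nondeg (seg τ (addF σ ρ) t)

end

section

variable {d : ℕ}

attribute [local instance] cs mf

variable {Z X : Type} [TopologicalSpace Z] [ChartedSpace (ES d) Z]
  [IsManifold 𝓘(ℝ, ES d) ∞ Z] [TopologicalSpace X] [ChartedSpace (ES d) X]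
  [IsManifold 𝓘(ℝ, ES d) ∞ X] {Γ : Type} [Group Γ] [MulAction Γ Z]

theorem maps [CompactSpace X] [T2Space X] (hΓ : Amenable Γ) (pr : Z → X)
    (hpr : NormalCovering (ES d) Γ pr) (J : End (ES d) X) (hJ : IsAlmostComplex J)
    (σ : Form (ES d) X 2) (hσ : IsSmooth σ) (hσc : IsClosedForm σ)
    (β : Form (ES d) Z 1) (η : Form (ES d) Z 2) (hβ : IsSmooth β) (hη : IsSmooth η)
    (hβη : IsD β η) (hbt : BoundedTranslates1 Γ β) {m : ℕ}
    {Y : Type} [TopologicalSpace Y] [ChartedSpace (ES m) Y] [IsManifold 𝓘(ℝ, ES m) ∞ Y]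
    [T2Space Y] (f : X → Y) (hf : ContMDiff 𝓘(ℝ, ES d) 𝓘(ℝ, ES m) ∞ f)
    (hker : ∀ (z : Z) (v : TangentSpace 𝓘(ℝ, ES d) (pr z)),
      mfderiv 𝓘(ℝ, ES d) 𝓘(ℝ, ES m) f (pr z) v ≠ 0 →
        SumPos Γ pr J (addF (lift pr σ) η) z v)
    (hsmall : SmallInFibres Γ pr J (addF (lift pr σ) η) f) : SymplecticInClass σ J := by
  obtain ⟨μ, hμ⟩ := hΓ
  obtain ⟨α, ρ, h1, h2, h3, h4, h5⟩ := Pool.Agent.V11153.SY.amenC (d := d) (Z := Z) (X := X)
    (Γ := Γ) (n := m) (Y := Y) Pool.Agent.Y903.SY.t_BT Pool.Agent.Y455.SY.t_MEAN1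
    Pool.Agent.Y945.SY.t_DESC1
    (mean_of hμ) hpr.smooth (pr := pr) hpr.diffeo hpr.surj hpr.orbits (J := J)
    (ac_of J hJ) (f := f) hf (σ := σ) ((smooth_iff σ).1 hσ) ((closed_iff σ).1 hσc) (β := β)
    (η := η) ((smooth_iff β).1 hβ) ((smooth_iff η).1 hη) ((isD_iff β η).1 hβη)
    (fun U φ hU hφ => by
      have := hbt U φ ⟨hU, hφ⟩
      exact ⟨this.smooth, this.bound⟩)
    hker (fun z hz => smallP_of (hsmall z hz))
  have h6 : IsTamingSymplectic (addF σ ρ) J :=
    symp_of ((smooth_iff _).2 (((smooth_iff σ).1 hσ).add h2)) ((closed_iff _).2 h4) h5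
  exact ⟨α, ρ, (smooth_iff α).2 h1, (smooth_iff ρ).2 h2, (isD_iff α ρ).2 h3, h6,
    fun τ hτ t ht0 ht1 => seg_nondeg hτ h6.tames t ht0 ht1⟩

theorem small [CompactSpace X] [T2Space X] (hΓ : Amenable Γ) (pr : Z → X)
    (hpr : NormalCovering (ES d) Γ pr) (J : End (ES d) X) (hJ : IsAlmostComplex J)
    (σ : Form (ES d) X 2) (hσ : IsSmooth σ) (hσc : IsClosedForm σ)
    (β : Form (ES d) Z 1) (η : Form (ES d) Z 2) (hβ : IsSmooth β) (hη : IsSmooth η)
    (hβη : IsD β η) (hbt : BoundedTranslates1 Γ β)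
    (hsmall : SmallNotSum Γ pr J (addF (lift pr σ) η)) : SymplecticInClass σ J := by
  refine maps hΓ pr hpr J hJ σ hσ hσc β η hβ hη hβη hbt (m := 0) (Y := ES 0)
    (fun _ : X => (0 : ES 0)) contMDiff_const ?_ ?_
  · intro z v hv
    exfalso
    apply hv
    rw [mfderiv_const]
    rfl
  · intro z hz
    have e : NotSum Γ pr J (addF (lift pr σ) η) ∩
        (fun _ : X => (0 : ES 0)) ⁻¹' {(fun _ : X => (0 : ES 0)) (pr z)} =
        NotSum Γ pr J (addF (lift pr σ) η) := by
      ext x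
      simp
    rw [e]
    exact hsmall z hz

omit [IsManifold 𝓘(ℝ, ES d) ∞ Z] [IsManifold 𝓘(ℝ, ES d) ∞ X] in
theorem lifts (pr : Z → X) (hpr : NormalCovering (ES d) Γ pr) (z : Z) :
    Function.Bijective (mfderiv 𝓘(ℝ, ES d) 𝓘(ℝ, ES d) pr z) := by
  have h1 := (hpr.diffeo z).mfderivToContinuousLinearEquiv_coe (by simp)
  rw [← h1]
  exact ((hpr.diffeo z).mfderivToContinuousLinearEquiv (by simp)).bijective

end

/-- **Symplectic forms in a prescribed class and homotopy class, from amenable coverings.** Let `X`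
be a closed manifold with a continuous almost complex structure `J`, `σ` a smooth closed two-form,
`pr : Z → X` a normal covering with amenable deck group `Γ`, `β` a smooth one-form on `Z` with
bounded translates, `dβ = η` and `w = pr^* σ + dβ`. The class of `σ` contains a symplectic form
taming `J`, homotopic through nondegenerate forms to every form taming `J`, in each of the following
cases. (1) For a smooth map `f` from `X` to a manifold, finite sums of the translates of `w` are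
uniformly positive on the lifts of `(v, J v)` for all `v` with `df(v) ≠ 0`, and the components
inside the fibres of `f` of the set of points over which this fails for some `v ≠ 0` are small.
(2) The components of that set are small. (3) `w` is weakly taming, and uniformly taming at a
relatively dense set of lifts. -/
theorem result (d : ℕ) (Z X : Type) [TopologicalSpace Z] [ChartedSpace (ES d) Z]
    [IsManifold 𝓘(ℝ, ES d) ∞ Z] [TopologicalSpace X] [ChartedSpace (ES d) X]
    [IsManifold 𝓘(ℝ, ES d) ∞ X] (Γ : Type) [Group Γ] [MulAction Γ Z]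
    [CompactSpace X] [T2Space X] (hΓ : Amenable Γ) (pr : Z → X)
    (hpr : NormalCovering (ES d) Γ pr) (J : End (ES d) X) (hJ : IsAlmostComplex J)
    (σ : Form (ES d) X 2) (hσ : IsSmooth σ) (hσc : IsClosedForm σ)
    (β : Form (ES d) Z 1) (η : Form (ES d) Z 2) (hβ : IsSmooth β) (hη : IsSmooth η)
    (hβη : IsD β η) (hbt : BoundedTranslates1 Γ β) :
    (∀ (m : ℕ) (Y : Type) [TopologicalSpace Y] [ChartedSpace (ES m) Y]
      [IsManifold 𝓘(ℝ, ES m) ∞ Y] [T2Space Y] (f : X → Y),
      ContMDiff 𝓘(ℝ, ES d) 𝓘(ℝ, ES m) ∞ f →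
      (∀ (z : Z) (v : TangentSpace 𝓘(ℝ, ES d) (pr z)),
        mfderiv 𝓘(ℝ, ES d) 𝓘(ℝ, ES m) f (pr z) v ≠ 0 →
          SumPos Γ pr J (addF (lift pr σ) η) z v) →
      SmallInFibres Γ pr J (addF (lift pr σ) η) f → SymplecticInClass σ J) ∧
    (SmallNotSum Γ pr J (addF (lift pr σ) η) → SymplecticInClass σ J) ∧
    (WeaklyTames Γ pr J (addF (lift pr σ) η) → SyndeticallyTames Γ pr J (addF (lift pr σ) η) →
      SymplecticInClass σ J) := by
  refine ⟨?_, small hΓ pr hpr J hJ σ hσ hσc β η hβ hη hβη hbt, ?_⟩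
  · intro m Y _ _ _ _ f hf hker hsm
    exact maps hΓ pr hpr J hJ σ hσ hσc β η hβ hη hβη hbt f hf hker hsm
  · intro hweak hsynd
    refine small hΓ pr hpr J hJ σ hσ hσc β η hβ hη hβη hbt ?_
    rintro z₀ ⟨z, -, v, hv, hn⟩
    exfalso
    apply hn
    obtain ⟨u, hu⟩ := (lifts pr hpr z).2 v
    obtain ⟨u', hu'⟩ := (lifts pr hpr z).2 (J (pr z) v)
    have hu0 : u ≠ 0 := by
      rintro rfl
      apply hv
      rw [← hu, map_zero]
    have hJu : mfderiv 𝓘(ℝ, ES d) 𝓘(ℝ, ES d) pr z u' =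
        J (pr z) (mfderiv 𝓘(ℝ, ES d) 𝓘(ℝ, ES d) pr z u) := by rw [hu', hu]
    obtain ⟨F, c, hc, hle⟩ := hsynd z u u' hu0 hJu
    refine ⟨u, u', hu, hu', F, c, hc, fun γ => ?_⟩
    obtain ⟨g, hg, hcg⟩ := hle γ
    exact hcg.trans (Finset.single_le_sum
      (f := fun g => translate (γ * g) (addF (lift pr σ) η) z ![u, u'])
      (fun g _ => hweak z u u' hJu (γ * g)) hg)

end Pool.Agent.Results.MP_bf98aa_gt.AmenableSumsInClass
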