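import Mathlib
import Pool.Agent.Helper33.CH5

/-!
# Symplectic forms in prescribed classes from chains of closed forms

`X` is a closed manifold with a continuous almost complex structure `J`, and `ζ 0, …, ζ k` are closed
two-forms. The vectors of `X` are exhausted in `k + 1` steps: `N 0 ⊇ N 1 ⊇ ⋯ ⊇ N k` are sets of tangent
vectors, `N 0` consists of all vectors, and for `i < k` the form `ζ i` is nonnegative on the pairs
`(v, J v)`, `v` in `N i`, and null exactly for `v` in `N (i + 1)`; it is enough that this holds locally
along `N i` (over the supports of functions which are constant along `N i`, for instance over small open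
subsets of the base of a map whose kernel contains `N i`) and up to exact forms which depend on the place
(`Level`). In the last step `N k` is contained in the kernel of the differential of a map `f` to a manifold,
and over each fibre of `f` the form `ζ k`, corrected by an exact form which depends on the fibre, is
nonnegative on `N k` and positive except at a set of points with small components (`GoodOver`).

Then for all small `t_k > 0`, all small `t_{k-1} > 0` (depending on `t_k`), …, all small `t_1 > 0` the class
`[ζ 0] + t_1 [ζ 1] + t_1 t_2 [ζ 2] + ⋯ + t_1 ⋯ t_k [ζ k]` contains a symplectic form which tames `J` and is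
homotopic through nondegenerate forms to every form taming `J`.

Special cases: `k = 0` and `f` constant (weakly taming forms), `k = 1` (the theorems of Thurston and Gompf,
with arbitrary singular fibres); for larger `k`, towers of maps `X → Y_k → ⋯ → Y_1` where only the forms on
`X` and the cones, not the manifolds `Y_i`, have to be almost complex or symplectic.
-/

set_option autoImplicit false

open Set MeasureTheory
open scoped Manifold ContDiff

namespace Pool.Agent.Results.MP_bf98aa_gt.ChainsOfForms

open Pool.Agent.Y501.SYP Pool.Agent.Helper33.CHP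

theorem result (d m : ℕ) (X Y : Type) [TopologicalSpace X] [ChartedSpace (ES d) X]
    [IsManifold 𝓘(ℝ, ES d) ∞ X] [CompactSpace X] [T2Space X]
    [TopologicalSpace Y] [ChartedSpace (ES m) Y] [IsManifold 𝓘(ℝ, ES m) ∞ Y] [T2Space Y]
    [SigmaCompactSpace Y]
    (J : End (ES d) X) (hJ : IsAlmostComplex J)
    (k : ℕ) (ζ : ℕ → Form (ES d) X 2) (hζ : ∀ i ≤ k, IsSmooth (ζ i) ∧ IsClosedForm (ζ i))
    (N : ℕ → Cone (ES d) X) (hN0 : ∀ x v, N 0 x v)
    (hlev : ∀ i < k, Level (ζ i) J (N i) (N (i + 1)))
    (f : X → Y) (hf : ContMDiff 𝓘(ℝ, ES d) 𝓘(ℝ, ES m) ∞ f)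
    (hker : ∀ (x : X) (v : TangentSpace 𝓘(ℝ, ES d) x), N k x v →
      mfderiv 𝓘(ℝ, ES d) 𝓘(ℝ, ES m) f x v = 0)
    (hfib : ∀ y : Y, GoodOver (N k) (ζ k) J (f ⁻¹' {y})) :
    ∃ (α : ℕ → Form (ES d) X 1) (ρ : ℕ → Form (ES d) X 2),
      (∀ i ≤ k, IsSmooth (α i) ∧ IsSmooth (ρ i) ∧ IsD (α i) (ρ i)) ∧
      NestedForms (TamingInHomotopyClass J) (fun i => addF (ζ i) (ρ i)) k
        (addF (ζ k) (ρ k)) :=
  severalLevels J hJ k ζ hζ N hN0 hlev f hf hker hfib

end Pool.Agent.Results.MP_bf98aa_gt.ChainsOfForms
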